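import Pool.Agent.Y696.BL.Fin

/-!
# Entire curves and integral points for schemes over a split semiabelian variety

`K` is a number field with an embedding `σ` in `ℂ`, `G = E_1 × … × E_r × G_m^s` is a split
semiabelian variety, the `E_i` being elliptic curves `y² = x³ + a_i x` or `y² = x³ + b_i`, and `V` is
the scheme of the points `(P, u, x, w)`, `P ∈ E_1 × … × E_r`, `u ∈ G_m^s`, `x ∈ 𝔸ⁿ`, with

  `G_e(P, u; x) = 0`, `w_i² = F_i(P, u; x)`,

the `G_e` and `F_i` polynomials over `𝓞 K`, multihomogeneous in the coordinates of the `E_i` in the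
plane, the `F_i` of even degrees. Let `L` be a finite extension of `K` and `S` a finite set of
primes of `L`. We consider the `x ∈ (𝓞 L)ⁿ` such that for some `S`-units `z_1, …, z_n` there is an
`S`-integral point of `V` above `(z_1 x_1, …, z_n x_n)` (every `S`-integral vector is such a
multiple of an integral vector).

1. Suppose that every nonconstant entire curve in `V` lies in the closed subset `V'` given by
equations `G'_l(P, u; x) = 0`, and that `V'` contains no fibre of `G × 𝔸ⁿ → G` (for example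
`V' = ∅`). Then almost no `x` is of this kind: at most `(2H+1)^(nN) exp(- c log H / log log H)` of
the `(2H+1)^(nN)` vectors `x` of size at most `H`, `N = [L : ℚ]`.

2. If there are no `w_i`, that is if `V` is closed in `G × 𝔸ⁿ`, then the `x` of this kind of size at
most `H` lie on at most `exp((log H)^τ)` hypersurfaces over `L` of degree at most `k`, where
`τ < 1`, `k = max deg G_e`.

3. If `V` is closed in `G × 𝔸ⁿ` and quasi-finite over `G` (all complex fibres have at most `D`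
points), then at most `D exp((log H)^τ)` of the `x` of size at most `H` are of this kind.
-/

set_option autoImplicit false

namespace Pool.Agent.Results.MP_e97a4d_nt.IntegralPointsOverSemiabelian

open MvPolynomial NumberField IsDedekindDomain Pool.Agent.H901R3.MS Pool.Agent.W659 Pool.Agent.W659.SA
open Pool.Agent.Y696.BL

/-- `V'` contains no fibre: for no `(P, u)` do all `G'_l(P, u; x)` vanish identically in `x`. -/
def ContainsNoFibre {K : Type} [Field K] (σ : K →+* ℂ) {r s n q' : ℕ} (a b : Fin r → ℤ)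
    (G' : Fin q' → Pol (𝓞 K) r s n) : Prop :=
  ∀ (P : Fin r → Fin 3 → ℂ) (u : Fin s → ℂ), (∀ i, FD.OnE (a i) (b i) (P i)) →
    (∀ l, u l ≠ 0) → ∃ (x : Fin n → ℂ) (l : Fin q'), vl (toC σ) (G' l) P u x ≠ 0

/-- all complex fibres of `V`, given by the `G_e`, over the semiabelian variety have at most `D`
points -/
def FibresAtMost {K : Type} [Field K] (σ : K →+* ℂ) {r s n q : ℕ} (a b : Fin r → ℤ)
    (G : Fin q → Pol (𝓞 K) r s n) (D : ℕ) : Prop :=
  ∀ (P : Fin r → Fin 3 → ℂ) (u : Fin s → ℂ), (∀ i, FD.OnE (a i) (b i) (P i)) →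
    (∀ l, u l ≠ 0) → ∃ T : Finset (Fin n → ℂ), T.card ≤ D ∧
      ∀ x, (∀ e, vl (toC σ) (G e) P u x = 0) → x ∈ T

/-- Statement 1. -/
def Statement1 : Prop := ∀ (K : Type) [Field K] [NumberField K] (r s n q m q' : ℕ)
  (a b : Fin r → ℤ), (∀ i, a i * b i = 0 ∧ (a i ≠ 0 ∨ b i ≠ 0)) →
  ∀ (G : Fin q → Pol (𝓞 K) r s n) (d' : Fin q → Fin r → ℕ), (∀ e, MHomog (G e) (d' e)) →
  ∀ (F : Fin m → Pol (𝓞 K) r s n) (d : Fin m → Fin r → ℕ), (∀ e i, Even (d e i)) →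
  (∀ e, MHomog (F e) (d e)) → ∀ (G' : Fin q' → Pol (𝓞 K) r s n) (σ : K →+* ℂ),
  1 ≤ n → EntireIn σ a b G F G' → ContainsNoFibre σ a b G' →
  ∀ (L : Type) [Field L] [NumberField L] [Algebra K L] (S : Set (HeightOneSpectrum (𝓞 L))),
  S.Finite → ∀ (N : ℕ) (ω : Module.Basis (Fin N) ℤ (𝓞 L)),
    ∃ c : ℝ, 0 < c ∧ ∃ H₀ : ℕ, ∀ H : ℕ, H₀ ≤ H →
      (((Below K S ω a b G F H).ncard : ℕ) : ℝ) ≤
        (2 * (H : ℝ) + 1) ^ (n * N) * Real.exp (-c * (Real.log H / Real.log (Real.log H)))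

/-- Statement 2. -/
def Statement2 : Prop := ∀ (K : Type) [Field K] [NumberField K] (r s n q q' k : ℕ)
  (a b : Fin r → ℤ), (∀ i, a i * b i = 0 ∧ (a i ≠ 0 ∨ b i ≠ 0)) →
  ∀ (G : Fin q → Pol (𝓞 K) r s n) (d' : Fin q → Fin r → ℕ), (∀ e, MHomog (G e) (d' e)) →
  (∀ e, (G e).totalDegree ≤ k) → ∀ (G' : Fin q' → Pol (𝓞 K) r s n) (σ : K →+* ℂ),
  1 ≤ n → EntireIn (m := 0) σ a b G Fin.elim0 G' → ContainsNoFibre σ a b G' →
  ∀ (L : Type) [Field L] [NumberField L] [Algebra K L] (S : Set (HeightOneSpectrum (𝓞 L))),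
  S.Finite → ∀ (N : ℕ) (ω : Module.Basis (Fin N) ℤ (𝓞 L)),
    ∃ τ : ℝ, 0 < τ ∧ τ < 1 ∧ ∃ H₀ : ℕ, 3 ≤ H₀ ∧ ∀ H : ℕ, H₀ ≤ H →
      ∃ Z : Finset (MvPolynomial (Fin n) L), (Z.card : ℝ) ≤ Real.exp ((Real.log H) ^ τ) ∧
        (∀ f ∈ Z, f ≠ 0 ∧ f.totalDegree ≤ k) ∧
        ∀ c ∈ Below (m := 0) K S ω a b G Fin.elim0 H, ∃ f ∈ Z,
          eval (fun i => ((vec ω c i : 𝓞 L) : L)) f = 0

/-- Statement 3. -/
def Statement3 : Prop := ∀ (K : Type) [Field K] [NumberField K] (r s n q D : ℕ)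
  (a b : Fin r → ℤ), (∀ i, a i * b i = 0 ∧ (a i ≠ 0 ∨ b i ≠ 0)) →
  ∀ (G : Fin q → Pol (𝓞 K) r s n) (d' : Fin q → Fin r → ℕ), (∀ e, MHomog (G e) (d' e)) →
  ∀ (σ : K →+* ℂ), FibresAtMost σ a b G D →
  ∀ (L : Type) [Field L] [NumberField L] [Algebra K L] (S : Set (HeightOneSpectrum (𝓞 L))),
  S.Finite → ∀ (N : ℕ) (ω : Module.Basis (Fin N) ℤ (𝓞 L)),
    ∃ τ : ℝ, 0 < τ ∧ τ < 1 ∧ ∃ H₀ : ℕ, 3 ≤ H₀ ∧ ∀ H : ℕ, H₀ ≤ H →
      (((Below (m := 0) K S ω a b G Fin.elim0 H).ncard : ℕ) : ℝ) ≤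
        D * Real.exp ((Real.log H) ^ τ)

theorem noFibre_spc {K : Type} [Field K] {σ : K →+* ℂ} {r s n q' : ℕ} {a b : Fin r → ℤ}
    {G' : Fin q' → Pol (𝓞 K) r s n} (h : ContainsNoFibre σ a b G') (V : Fin r → Fin 3 → ℂ)
    (u : Fin s → ℂ) (hV : ∀ i, FD.OnE (a i) (b i) (V i)) (hu : ∀ l, u l ≠ 0) :
    ∃ l, spc (toC σ) (G' l) V u ≠ 0 := by
  obtain ⟨x, l, hl⟩ := h V u hV hu
  refine ⟨l, fun h0 => hl ?_⟩
  rw [vl_eq, h0, map_zero]

/-- **Entire curves and integral points for schemes over a split semiabelian variety.** -/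
theorem result : Statement1 ∧ Statement2 ∧ Statement3 := by
  refine ⟨?_, ?_, ?_⟩
  · intro K _ _ r s n q m q' a b hab G d' hG F d hd hF G' σ hn hE hN L _ _ _ S hS N ω
    obtain ⟨n, rfl⟩ : ∃ k, n = k + 1 := ⟨n - 1, by omega⟩
    exact part1 hab hG hd hF hE (noFibre_spc hN) hS ω
  · intro K _ _ r s n q q' k a b hab G d' hG hk G' σ hn hE hN L _ _ _ S hS N ω
    obtain ⟨n, rfl⟩ : ∃ k, n = k + 1 := ⟨n - 1, by omega⟩
    exact part2 hab hG hk hE (noFibre_spc hN) hS ω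
  · intro K _ _ r s n q D a b hab G d' hG σ hfib L _ _ _ S hS N ω
    exact part3 hab hG hfib hS ω

end Pool.Agent.Results.MP_e97a4d_nt.IntegralPointsOverSemiabelian
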