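import Mathlib
import Pool.Agent.Y377.IR.Aff
import Pool.Agent.Y377.AO.Conn2

set_option autoImplicit false

/-!
# The Bombieri-Lang-Vojta equivalence for iterated recurrences and differential equations

Let `V` be an affine variety over a number field `K`, the zeros in affine `n`-space of finitely many
polynomials `F` with coefficients in `𝓞 K`, and `V'` the closed subset of `V` given by `G`.

Let `H` be a group. We consider the rings of functions on `H` (`FTow`) which are obtained from the
ring of the constants `ℂ` in finitely many steps of the following kind: the entries of an invertible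
matrix `X(h)` of functions and of its inverse are added to the ring `R`, where for all `g` in `H` the
entries of `X(gh) X(h)⁻¹`, as functions of `h`, belong to `R`. For the integers these functions are
given by iterated recurrences (`IterRec`): the set of these sequences contains the constants and is
closed under sums, products and solutions of systems `y(m + 1) = A(m) y(m)` such that the entries of
`A` and of `A⁻¹` belong to the set.

The following are equivalent:

* (`IterCurvesIn`) every nonconstant entire curve in `V` with coordinates given by iterated linear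
  differential equations (the smallest set of meromorphic functions on the plane which contains the
  constants and is closed under sums, products and meromorphic solutions of systems `y' = A y` with
  coefficients in the set) lies in `V'`;
* (`GmCurvesIn`) every nonconstant map from the punctured line to `V` lies in `V'`;
* (`IteratedFiniteA`) for all fields `L ⊇ K` in `ℂ`, all groups `H` and all families of points of
  `V(L)` with coordinates in a ring of functions on `H` as above, only finitely many of the points
  are outside `V'`;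
* (`SequenceFiniteA`) the same for number fields `L` and sequences of points of `V(L)`, indexed by
  the integers, with coordinates given by iterated recurrences;
* (`DegreeBound`) for ALL groups and representations `ρ : H → GL_r(L)` over number fields `L ⊇ K` of
  degree at most `D` over `ℚ`, at most `∏_{f = 1}^{D} |GL_r(𝔽_{2^f})| |GL_r(𝔽_{3^f})|` points
  `M ρ(h) v` of an orbit on `V` are outside `V'`.

Both conditions of the Bombieri-Lang-Vojta conjecture, (i) on entire curves and (ii) on
`S`-integral points, imply these.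

The parts of the proof are due to helpers 312, 657, 921, 987, 523, 737, 495, 68, 401, 529 and to the
authors of the files on iterated linear differential equations (`Y377/IL`).
-/

namespace Pool.Agent.Results.MP_e97a4d_nt.IteratedEquivalence

open MvPolynomial Pool.Agent.W235.RM Pool.Agent.TH717.GO Pool.Agent.Y377.AO Pool.Agent.Y377.IR
open Pool.Agent.H159R3.Exp (FinitelyManyIntegral ExpCurvesIn)
open scoped NumberField

/-- the orbit: the points `M ρ(h) v`, `h` in the group -/
def Orb {L : Type} [Field L] {n r : ℕ} {H : Type} [Group H] (M : Matrix (Fin n) (Fin r) L)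
    (ρ : H →* Matrix.GeneralLinearGroup (Fin r) L) (v : Fin r → L) : Set (Fin n → L) :=
  Set.range fun h : H => M.mulVec ((ρ h : Matrix (Fin r) (Fin r) L).mulVec v)

variable {K : Type} [Field K] {ι κ : Type} {n : ℕ}

/-- uniform bound for all groups of matrices over number fields of bounded degree -/
def DegreeBound (F : ι → MvPolynomial (Fin n) (𝓞 K)) (G : κ → MvPolynomial (Fin n) (𝓞 K)) :
    Prop :=
  ∀ (r D : ℕ) (L : Type) [Field L] [NumberField L] [Algebra K L], Module.finrank ℚ L ≤ D →
    ∀ (H : Type) [Group H] (ρ : H →* Matrix.GeneralLinearGroup (Fin r) L)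
      (M : Matrix (Fin n) (Fin r) L) (v : Fin r → L), Orb M ρ v ⊆ Zeros F L →
      (Orb M ρ v \ Zeros G L).encard ≤ (∏ f ∈ Finset.Icc 1 D,
        ((∏ i ∈ Finset.range r, ((2 ^ f) ^ r - (2 ^ f) ^ i)) *
          ∏ i ∈ Finset.range r, ((3 ^ f) ^ r - (3 ^ f) ^ i)) : ℕ)

theorem onV_iff {L : Type} [Field L] [Algebra K L] {r : ℕ} {H : Type} [Group H]
    (F : ι → MvPolynomial (Fin n) (𝓞 K)) (M : Matrix (Fin n) (Fin r) L)
    (ρ : H →* Matrix.GeneralLinearGroup (Fin r) L) (v : Fin r → L) :
    OnV (mapS F) M ρ v ↔ Orb M ρ v ⊆ Zeros F L := by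
  constructor
  · rintro h _ ⟨g, rfl⟩ i
    have h1 := h g _ ⟨i, rfl⟩
    rwa [aeval_mapS] at h1
  · rintro h g _ ⟨i, rfl⟩
    rw [aeval_mapS]
    exact h ⟨g, rfl⟩ i

theorem off_eq {L : Type} [Field L] [Algebra K L] {r : ℕ} {H : Type} [Group H]
    (G : κ → MvPolynomial (Fin n) (𝓞 K)) (M : Matrix (Fin n) (Fin r) L)
    (ρ : H →* Matrix.GeneralLinearGroup (Fin r) L) (v : Fin r → L) :
    offSet (mapS G) M ρ v = Orb M ρ v \ Zeros G L := by
  ext x
  constructor
  · rintro ⟨⟨h, rfl⟩, _, ⟨i, rfl⟩, hne⟩
    refine ⟨⟨h, rfl⟩, fun h0 => hne ?_⟩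
    rw [aeval_mapS]
    exact h0 i
  · rintro ⟨⟨h, rfl⟩, hne⟩
    have h1 : ¬ ∀ i, eval₂ ((algebraMap K L).comp (algebraMap (𝓞 K) K))
      (M.mulVec ((ρ h : Matrix (Fin r) (Fin r) L).mulVec v)) (G i) = 0 := hne
    push Not at h1
    obtain ⟨i, hi⟩ := h1
    refine ⟨⟨h, rfl⟩, _, ⟨i, rfl⟩, ?_⟩
    rw [aeval_mapS]
    exact hi

theorem cyclic_finite {F : ι → MvPolynomial (Fin n) (𝓞 K)} {G : κ → MvPolynomial (Fin n) (𝓞 K)}
    (hb : DegreeBound F G) (r : ℕ) (L : Type) [Field L] [NumberField L] [Algebra K L]
    (ρ : Multiplicative ℤ →* Matrix.GeneralLinearGroup (Fin r) L)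
    (M : Matrix (Fin n) (Fin r) L) (v : Fin r → L) (h : Orb M ρ v ⊆ Zeros F L) :
    (Orb M ρ v \ Zeros G L).Finite :=
  Set.finite_of_encard_le_coe (hb r _ L le_rfl (Multiplicative ℤ) ρ M v h)

theorem result {K : Type} [Field K] [NumberField K] (σ : K →+* ℂ) {ι κ : Type} [Finite ι] {n : ℕ}
    (F : ι → MvPolynomial (Fin n) (𝓞 K)) (G : κ → MvPolynomial (Fin n) (𝓞 K)) :
    List.TFAE [IterCurvesIn σ F G, GmCurvesIn σ F G, IteratedFiniteA F G, SequenceFiniteA F G,
      DegreeBound F G] ∧
    (EntireCurvesIn σ F G → IteratedFiniteA F G) ∧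
    (FinitelyManyIntegral F G → IteratedFiniteA F G) := by
  have h0 := tfae σ F G
  have hgm : GmCurvesIn σ F G → ∀ σ' : K →+* ℂ, GmCurvesIn σ' F G := fun h σ' =>
    ((tfae σ' F G).out 1 5 : GmCurvesIn σ' F G ↔ RecurrenceFinite F G).2
      ((h0.out 1 5 : GmCurvesIn σ F G ↔ RecurrenceFinite F G).1 h)
  have hlau : ¬ HasLaurent F G → GmCurvesIn σ F G := by
    intro h
    by_contra h2
    exact h (hasLaurent_of_exp F G σ (not_exp_of_not_gm σ F G h2))
  have hmain : List.TFAE [IterCurvesIn σ F G, GmCurvesIn σ F G, IteratedFiniteA F G,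
      SequenceFiniteA F G, DegreeBound F G] := by
    tfae_have 1 → 2 := gm_of_iterCurvesIn
    tfae_have 2 → 1 := iterCurvesIn_of_gm
    tfae_have 2 → 3 := fun h => iteratedFinite_of_gm (hgm h)
    tfae_have 3 → 4 := sequenceFiniteA_of_iterated
    tfae_have 4 → 2 := fun h => hlau (not_hasLaurent_of_sequence h)
    tfae_have 2 → 5 := by
      intro h r D L _ _ _ hD H _ ρ M v hX
      rw [← off_eq]
      exact uni_coreA (orb_coreA _ _ r (acond_of_noLaurent F G
        (fun h2 => not_gm_of_hasLaurent σ F G h2 h) (r * r)))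
        (specDeg_of_numberField L D hD) ρ M v ((onV_iff F M ρ v).2 hX)
    tfae_have 5 → 2 := by
      intro hb
      apply hlau
      intro hL
      obtain ⟨r, L, iF, iN, iA, ρ, M, v, h2, h3⟩ := conv_hasLaurent F G hL
      rw [off_eq] at h3
      exact h3 (cyclic_finite hb r L ρ M v ((onV_iff F M ρ v).1 h2))
    tfae_finish
  have h23 : GmCurvesIn σ F G ↔ IteratedFiniteA F G := hmain.out 1 2
  refine ⟨hmain, fun h => h23.1 ?_, fun h => h23.1 ?_⟩
  · exact (h0.out 0 1 : ExpCurvesIn σ F G ↔ GmCurvesIn σ F G).1 (exp_of_entire σ F G h)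
  · have h6 : RecurrenceFinite F G := rec_of_integral F G h
    exact (h0.out 5 1 : RecurrenceFinite F G ↔ GmCurvesIn σ F G).1 h6

end Pool.Agent.Results.MP_e97a4d_nt.IteratedEquivalence
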