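import Mathlib
import Pool.Agent.Y742.AR.Fin
import Pool.Agent.Y742.CX.Fin

set_option autoImplicit false

/-!
# The Bombieri-Lang-Vojta conjecture for families of affine spaces over closed subschemes of tori

Let `K` be a number field with an embedding `σ` in the field of complex numbers and let `V` be the
closed subscheme of affine `n`-space over the ring of integers of `K` given by the polynomials
`F i`. Let `I` be a set of coordinates. We suppose that

* the coordinates in `I` have no zero on the complex points of `V` (they are units on `V`), and
* all `F i` have total degree at most one in the other coordinates.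

So `V` is a family of affine spaces, of varying dimension, over a constructible subset of a torus;
for example the hypersurface `P (u) * y = Q (u)` in the product of a torus and the affine line (the
blowing up of the torus in the ideal `(P, Q)` without the strict transform of `P = 0`), or any
system of linear equations for `y` with coefficients in the coordinate ring of the torus.

For every closed subscheme `V'` of `V`, given by arbitrary polynomials `G l`, the two conditions of
the Bombieri-Lang-Vojta conjecture are equivalent: (i) every entire curve in `V` lies in `V'`
(`EntireCurvesIn`), (ii) `V(O_S) ∖ V'(O_S)` is always finite (`FinitelyManyIntegral`). Both are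
equivalent to: every nonconstant map from the punctured complex line to `V` which is given by
Laurent polynomials lies in `V'` (`GmCurvesIn`).

The proof: the subspace theorem over number fields for arbitrary linear forms at every place, the
theorem of Borel and the second main theorem of Nevanlinna theory for linear forms in entire
functions are put in one common abstract form; in this form the greatest common divisors of values
of polynomials at units are determined, and a large integral point, or a nonconstant entire curve,
outside `V'` is deformed to a curve with Laurent coordinates through a generic point.
-/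

namespace Pool.Agent.Results.MP_e97a4d_nt.LinearOverTori

open MvPolynomial Pool.Agent.W235.RM
open Pool.Agent.H159R3.Exp (FinitelyManyIntegral)
open scoped NumberField

/-- The Bombieri-Lang-Vojta conjecture for the affine schemes `V` given by polynomials `F i` of
degree at most one in the coordinates outside `I`, where the coordinates in `I` have no zero on
`V`, and for all closed subschemes `V'` of `V`, given by polynomials `G l`. -/
theorem result {K : Type} [Field K] [NumberField K] (σ : K →+* ℂ) {ι κ : Type} {n : ℕ}
    (F : ι → MvPolynomial (Fin n) (𝓞 K)) (G : κ → MvPolynomial (Fin n) (𝓞 K))
    (I : Finset (Fin n))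
    (hlin : ∀ i, ∀ s ∈ (F i).support, ∑ l ∈ Iᶜ, s l ≤ 1)
    (hunit : ∀ a ∈ I, ∀ z : Fin n → ℂ,
      (∀ i, eval₂ (σ.comp (algebraMap (𝓞 K) K)) z (F i) = 0) → z a ≠ 0) :
    List.TFAE [EntireCurvesIn σ F G, FinitelyManyIntegral F G, GmCurvesIn σ F G] := by
  have hnot : ∀ h : HasLaurent F G, ¬ GmCurvesIn σ F G := not_gm_of_hasLaurent σ F G
  have hexp : Pool.Agent.H159R3.Exp.ExpCurvesIn σ F G → GmCurvesIn σ F G := by
    intro h
    by_contra h2
    exact not_exp_of_not_gm σ F G h2 h
  tfae_have 1 → 3 := fun h => hexp (exp_of_entire σ F G h)
  tfae_have 2 → 3 := by
    intro h
    apply hexp
    by_contra h2
    exact not_rec_of_hasLaurent F G (hasLaurent_of_exp F G σ h2) (rec_of_integral F G h)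
  tfae_have 3 → 1 := by
    intro h
    by_contra h2
    exact hnot (Pool.Agent.Y742.CX.hasLaurent_of_entire σ F G I hlin hunit h2) h
  tfae_have 3 → 2 := by
    intro h
    by_contra h2
    exact hnot (Pool.Agent.Y742.AR.hasLaurent_of_infinite σ F G I hlin hunit h2) h
  tfae_finish

end Pool.Agent.Results.MP_e97a4d_nt.LinearOverTori
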