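import Mathlib
import Pool.Agent.Y215.AF.Ana

set_option autoImplicit false

/-!
# The Bombieri-Lang-Vojta equivalence for sums of units, and heights

Let `V` be an affine variety over a number field `K`, the zeros in affine `n`-space of finitely many
polynomials `F` with coefficients in `𝓞 K`, and `V'` the closed subset of `V` given by `G`.  The
following are equivalent:

* (`ExpCurvesIn`) every nonconstant entire curve in `V` of exponential type (after composition with
  a nonconstant entire function, a polynomial in `z` and exponentials of entire functions) lies in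
  `V'`;
* (`UnitCurvesIn`) every nonconstant entire curve in `V`, all of whose coordinates are finite sums
  of entire functions without zeros, lies in `V'`;
* (`GmCurvesIn`) every nonconstant map from the punctured line to `V` lies in `V'`;
* (`UnitSumFinite`) for all number fields `L ⊇ K`, all finite sets `S` of primes and all `r`, the
  points of `V ∖ V'` over `L`, all of whose coordinates are sums of at most `r` `S`-units, are
  finite in number;
* (`HullHeights`) for all finitely generated groups `Γ` of algebraic numbers there is `C` such that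
  for all points `x = u_1 V_1 + … + u_r V_r` of `V ∖ V'` over `Qbar`, with algebraic numbers `u_j`
  with a power in `Γ` and ARBITRARY vectors `V_j` over `Qbar`: `h(1 : x) ≤ C (1 + h(1 : V))`;
* (`HullRational`) so for each number field there are only finitely many such points over it with
  `h(1 : V) ≤ B`;
* (`HullNear`) for all `Γ` and `V_j` there are, over the field of ALL algebraic numbers, only
  finitely many points `u_1 s_1 V_1 + … + u_r s_r V_r` of `V ∖ V'` with `u_j` with a power in `Γ` and
  `h(1 : s) < ε`, at most `A (1 + h(1 : V)) ^ e`; here `ε > 0` depends on `r` and the degrees only.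

Both conditions of the Bombieri-Lang-Vojta conjecture, (i) on entire curves and (ii) on
`S`-integral points, imply these.
-/

namespace Pool.Agent.Results.MP_e97a4d_nt.UnitSumEquivalence

open MvPolynomial Pool.Agent.W235.RM Pool.Agent.Y215.AF
open Pool.Agent.H159R3.Exp (ExpCurvesIn FinitelyManyIntegral)
open scoped NumberField

theorem result : ∃ ε : ℕ → ℕ → ℝ, (∀ d r, 1 ≤ d → 0 < ε d r) ∧
    ∀ {K : Type} [Field K] [NumberField K] (σ : K →+* ℂ) {ι κ : Type} [Finite ι] {n : ℕ}
      (F : ι → MvPolynomial (Fin n) (𝓞 K)) (G : κ → MvPolynomial (Fin n) (𝓞 K)),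
      List.TFAE [ExpCurvesIn σ F G, UnitCurvesIn σ F G, GmCurvesIn σ F G, UnitSumFinite F G,
        HullHeights F G, HullRational F G, HullNear ε F G] ∧
      (EntireCurvesIn σ F G → HullHeights F G) ∧
      (FinitelyManyIntegral F G → HullHeights F G) := by
  refine ⟨eps, eps_pos, fun {K} _ _ σ {ι κ} _ {n} F G => ?_⟩
  have h0 := tfaeU σ F G
  have h1 : ExpCurvesIn σ F G ↔ HullHeights F G := h0.out 0 2
  have h2 : ExpCurvesIn σ F G ↔ HullRational F G := h0.out 0 3
  have h3 : ExpCurvesIn σ F G ↔ HullNear eps F G := h0.out 0 4
  have h4 : ExpCurvesIn σ F G ↔ UnitSumFinite F G := h0.out 0 5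
  have h5 : ExpCurvesIn σ F G ↔ GmCurvesIn σ F G := h0.out 0 1
  refine ⟨?_, fun h => @Iff.mp _ _ h1 (exp_of_entire σ F G h), fun h => ?_⟩
  · tfae_have 1 → 2 := unit_of_exp σ F G
    tfae_have 2 → 3 := gm_of_unit σ F G
    tfae_have 3 ↔ 1 := h5.symm
    tfae_have 1 ↔ 4 := h4
    tfae_have 1 ↔ 5 := h1
    tfae_have 1 ↔ 6 := h2
    tfae_have 1 ↔ 7 := h3
    tfae_finish
  · have h6 : RecurrenceFinite F G := rec_of_integral F G h
    exact @Iff.mp _ _ h1 (((tfae σ F G).out 5 0).1 h6)

end Pool.Agent.Results.MP_e97a4d_nt.UnitSumEquivalence
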